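import Pool.Agent.helper61.CSW.W.SpecW
import Pool.Agent.helper12.BR.HLZ

/-!
# Row csw:DBW (MP_70a088_an, class S): integration by parts
-/

set_option autoImplicit false

open Complex Metric Set Filter Topology MeasureTheory
open YPPS (fd fdd pre TT CV IsCyc rho Exact)
open MPS (BB)
open Pool.Agent.helper98.ILF (juliaSet fatouSet)

noncomputable section

open CSS (SE SV JJ)

namespace YW

theorem DBW_at {w B : ℂ → ℂ} {U : Set ℂ} (hw : ContDiff ℝ 1 w) (hU : IsOpen U) (hwU : tsupport w ⊆ U) (hB : DifferentiableOn ℂ B U) (z : ℂ) :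
    ContDiffAt ℝ 1 (fun y => w y * B y) z ∧ BR.dbar (fun y => w y * B y) z = BR.dbar w z * B z := by
  by_cases hz : z ∈ tsupport w
  · have hzU := hwU hz
    have hBz : DifferentiableAt ℂ B z := (hB z hzU).differentiableAt (hU.mem_nhds hzU)
    have hBc : ContDiffAt ℂ 1 B z := (hB.contDiffOn (n := 1) hU).contDiffAt (hU.mem_nhds hzU)
    have hwz : DifferentiableAt ℝ w z := (hw.differentiable one_ne_zero) z
    refine ⟨hw.contDiffAt.mul (hBc.restrict_scalars ℝ), ?_⟩
    have hBf : HasFDerivAt B ((fderiv ℂ B z).restrictScalars ℝ) z := hBz.hasFDerivAt.restrictScalars ℝ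
    have hB1 : ∀ v : ℂ, fderiv ℝ B z v = deriv B z * v := by
      intro v
      rw [hBf.fderiv, ContinuousLinearMap.coe_restrictScalars', fderiv_eq_smul_deriv, smul_eq_mul, mul_comm]
    unfold BR.dbar
    rw [fderiv_fun_mul hwz hBf.differentiableAt]
    simp only [_root_.add_apply, _root_.smul_apply, smul_eq_mul, hB1]
    linear_combination (w z * deriv B z / 2) * I_mul_I
  · have h0 : w =ᶠ[𝓝 z] 0 := notMem_tsupport_iff_eventuallyEq.1 hz
    have h1 : (fun y => w y * B y) =ᶠ[𝓝 z] fun _ => 0 := by
      filter_upwards [h0] with y hy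
      rw [hy]
      simp
    refine ⟨contDiffAt_const.congr_of_eventuallyEq h1, ?_⟩
    have h2 : fderiv ℝ w z = 0 := by
      rw [h0.fderiv_eq]
      simp
    have h3 : fderiv ℝ (fun y => w y * B y) z = 0 := by
      rw [h1.fderiv_eq]
      simp
    unfold BR.dbar
    rw [h2, h3]
    simp

theorem DBW : DBW_stmt := by
  intro w B U hw hws hU hwU hB
  have hF : ContDiff ℝ 1 (fun y => w y * B y) := contDiff_iff_contDiffAt.2 fun z => (DBW_at hw hU hwU hB z).1
  have hFs : HasCompactSupport (fun y => w y * B y) := hws.mul_right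
  have he : (fun z : ℂ => BR.dbar w z * B z) = BR.dbar (fun y => w y * B y) := by
    funext z
    exact (DBW_at hw hU hwU hB z).2.symm
  rw [he]
  have hc : Continuous (BR.dbar (fun y => w y * B y)) := by
    unfold BR.dbar
    have h1 := hF.continuous_fderiv one_ne_zero
    exact ((h1.clm_apply continuous_const).add
      (continuous_const.mul (h1.clm_apply continuous_const))).div_const 2
  have hs : HasCompactSupport (BR.dbar (fun y => w y * B y)) := by
    have h1 : HasCompactSupport (fderiv ℝ (fun y => w y * B y)) := hFs.fderiv ℝ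
    exact h1.comp_left (g := fun L : ℂ →L[ℝ] ℂ => (L 1 + I * L I) / 2) (by simp)
  exact ⟨hc.integrable_of_hasCompactSupport hs, BR.HLZ_dbar _ hF hFs⟩

end YW
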